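import Pool.Agent.H53.MC.Targets

/-!
# Board msc_modules (MP_c62aed_lc), row HIT
-/

set_option autoImplicit false

namespace Pool.Agent.H1.MSC

open Finset Pool.Agent.H53.MC

theorem pf_HIT : T_HIT := by
  classical
  intro n M k e w s₀ hH p hp
  have h1 : Nat.card {c : U M k // Ins e p c} ≤ s₀ := by
    have h2 : Nat.card {c : U M k // Ins e p c} ≤ Nat.card {j : Fin M // scope e j ⊆ p.1} := by
      refine Nat.card_le_card_of_injective (fun c => ⟨c.1.1, c.2.1⟩) ?_
      rintro ⟨⟨j, s⟩, h⟩ ⟨⟨j', s'⟩, h'⟩ hh
      have hj : j = j' := congrArg Subtype.val hh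
      subst hj
      have hs : s = s' := by
        funext i
        have a1 : p.2 (e j i) = s i := h.2 i
        have a2 : p.2 (e j i) = s' i := h'.2 i
        rw [← a1, ← a2]
      subst hs
      rfl
    refine h2.trans ?_
    have h3 : Nat.card {j : Fin M // scope e j ⊆ p.1} = cnt e p.1 := by
      rw [Nat.card_eq_fintype_card, Fintype.card_subtype]
      rfl
    rw [h3]
    exact hH p.1 (by omega)
  refine ⟨h1, fun m => ?_⟩
  set I : Finset (U M k) := univ.filter fun c => Ins e p c with hI
  have hIc : I.card ≤ s₀ := by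
    rw [Nat.card_eq_fintype_card, Fintype.card_subtype] at h1
    exact h1
  have hU : (univ : Finset (U M k)).card = M * 2 ^ k := by
    rw [Finset.card_univ, Fintype.card_prod, Fintype.card_fin, Fintype.card_fun,
      Fintype.card_bool, Fintype.card_fin]
  have h4 : (univ.filter fun F : Fin m → U M k => ∃ j, Ins e p (F j)) ⊆
      (univ : Finset (Fin m)).biUnion fun j =>
        Fintype.piFinset fun i => if i = j then I else (univ : Finset (U M k)) := by
    intro F hF
    rw [Finset.mem_filter] at hF
    obtain ⟨-, j, hj⟩ := hF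
    rw [Finset.mem_biUnion]
    refine ⟨j, Finset.mem_univ _, ?_⟩
    rw [Fintype.mem_piFinset]
    intro i
    by_cases hi : i = j
    · subst hi
      rw [if_pos rfl, hI, Finset.mem_filter]
      exact ⟨Finset.mem_univ _, hj⟩
    · rw [if_neg hi]
      exact Finset.mem_univ _
  have h5 : ∀ j : Fin m, (Fintype.piFinset fun i : Fin m =>
      if i = j then I else (univ : Finset (U M k))).card ≤ s₀ * (M * 2 ^ k) ^ (m - 1) := by
    intro j
    rw [Fintype.card_piFinset, ← Finset.mul_prod_erase univ _ (Finset.mem_univ j), if_pos rfl]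
    have h6 : ∏ x ∈ (univ : Finset (Fin m)).erase j,
        (if x = j then I else (univ : Finset (U M k))).card = (M * 2 ^ k) ^ (m - 1) := by
      rw [Finset.prod_congr rfl (g := fun _ => M * 2 ^ k), Finset.prod_const,
        Finset.card_erase_of_mem (Finset.mem_univ j), Finset.card_univ, Fintype.card_fin]
      intro x hx
      rw [if_neg (Finset.ne_of_mem_erase hx), hU]
    rw [h6]
    exact Nat.mul_le_mul_right _ hIc
  rw [Nat.card_eq_fintype_card, Fintype.card_subtype]
  calc (univ.filter fun F : Fin m → U M k => ∃ j, Ins e p (F j)).card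
      ≤ ((univ : Finset (Fin m)).biUnion fun j =>
        Fintype.piFinset fun i => if i = j then I else (univ : Finset (U M k))).card :=
        Finset.card_le_card h4
    _ ≤ ∑ j : Fin m, (Fintype.piFinset fun i : Fin m =>
        if i = j then I else (univ : Finset (U M k))).card := Finset.card_biUnion_le
    _ ≤ ∑ _j : Fin m, s₀ * (M * 2 ^ k) ^ (m - 1) := Finset.sum_le_sum fun j _ => h5 j
    _ = m * s₀ * (M * 2 ^ k) ^ (m - 1) := by
        rw [Finset.sum_const, Finset.card_univ, Fintype.card_fin, smul_eq_mul, mul_assoc]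

end Pool.Agent.H1.MSC
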